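import Pool.Agent.H606.GU.Stm

/-! TASK SEQ of project GU (helper606). -/

open MeasureTheory Filter Topology Finset
open Pool.Agent.H606.GU

namespace Pool.Agent.H428.GU.SEQ

theorem lt_two_elim (S : Sq) {T : ℝ} (hT : T < 2) (i : Fin (S.N T)) : False := by
  have h : S.N T = 0 := by unfold Sq.N; rw [if_pos hT]
  have := i.2
  omega

theorem tend : Tendsto (fun T : ℝ => T / (2 * Real.pi) * Real.log T) atTop atTop := by
  apply Tendsto.atTop_mul_atTop₀
  · exact tendsto_id.atTop_div_const (by positivity)
  · exact Real.tendsto_log_atTop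

theorem t_SEQ : S_SEQ := by
  intro S
  refine ⟨?_, tend, ?_, ?_⟩
  · intro T i
    by_cases hT : T < 2
    · exact (lt_two_elim S hT i).elim
    · have hT' : 2 ≤ T := not_lt.mp hT
      have hN : S.N T = S.cN T := by unfold Sq.N; rw [if_neg hT]
      have hi : i.val < S.cN T := by rw [← hN]; exact i.2
      have hg : S.g i.val ≤ T := (S.hc _ _).2 hi
      have hp := S.pos i.val
      have hl : 0 ≤ Real.log T := Real.log_nonneg (by linarith)
      have h2 : 0 ≤ Real.log T / (2 * Real.pi) := div_nonneg hl (by positivity)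
      unfold Sq.x
      refine ⟨mul_nonneg hp.le h2, ?_⟩
      calc S.g i.val * (Real.log T / (2 * Real.pi)) ≤ T * (Real.log T / (2 * Real.pi)) :=
            mul_le_mul_of_nonneg_right hg h2
        _ = T / (2 * Real.pi) * Real.log T := by ring
  · refine S.asy.congr' ?_
    filter_upwards [eventually_ge_atTop (2 : ℝ)] with T hT
    have hN : S.N T = S.cN T := by unfold Sq.N; rw [if_neg (not_lt.mpr hT)]
    rw [hN]
  · intro T i j hij
    by_cases hT : T < 2
    · exact (lt_two_elim S hT i).elim
    · have hT' : 2 ≤ T := not_lt.mp hT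
      have hl : 0 ≤ Real.log T := Real.log_nonneg (by linarith)
      have h2 : 0 ≤ Real.log T / (2 * Real.pi) := div_nonneg hl (by positivity)
      unfold Sq.x
      exact mul_le_mul_of_nonneg_right (S.mono hij) h2

end Pool.Agent.H428.GU.SEQ
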